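import Pool.Agent.Q126.FD.Tate
import Pool.Agent.Q126.FD.Fg

/-!
# The Tate conjecture for divisors at 2 for almost all elliptic surfaces with a section of order two
# over all infinite finitely generated fields of odd characteristic

Let `𝔽` be a finite field of odd characteristic and `k` a field which is generated by finitely many
elements over `𝔽(u)`, `u` transcendental over `𝔽` (every infinite finitely generated field of odd
characteristic is such a field, with `𝔽` the prime field and `u` any transcendental element). Let
`k'` be a separable closure of `k`, `K = k(t)`, `F = k'(t)`.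

Every elliptic curve over `K` with a rational point of order two has an equation

`E : y² = x (x² + a x + b)`

with polynomials `a`, `b`, and for general `a`, `b` of degrees at most `2 r` and `4 r` the geometric
genus of the elliptic surface over the projective line with the generic fibre `E` is `r - 1`.

Theorem. Let `3 ≤ m` and `2 n ≤ m` (for example `n = 2 r`, `m = 4 r`). Among the pairs `(a, b)` of
polynomials in `t` of degrees at most `n` and `m` whose coefficients are polynomials in `u` over `𝔽`
of degree less than `D`, the proportion of those for which

for all constants `d ≠ 0` in `k`, the twist `y² = x (x² + d a x + d² b)` of `E` satisfies the Tate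
conjecture for divisors at the prime 2 over `k` (`TateAtTwo`)

tends to one as `D` tends to infinity.

`TateAtTwo` says that all the classes in `V₂ Sel(E / F)` which are fixed by the Galois group of `k`
come from `E(K)`; as `Br(X ⊗ k') = Ш(E / F)` (Grothendieck), this is the Tate conjecture for divisors
at the prime 2 on the elliptic surface `X` over `k`.

The proof: the descent by the isogenies of degree two (`Pool.Agent.TH115.ID`) gives the Tate conjecture
if `b` and `a² - 4 b` are irreducible and separable over `k` and are not constants times norms from
quadratic extensions of `k`. For infinitely many primes `π(u)` the field `k` has an embedding in the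
field of power series over `𝔽[u] / π`, compatible with `u` (the analogue of a theorem of Cassels,
`rich_fg`; inseparable extensions of `𝔽(u)` are allowed). For each of these primes, a positive
proportion (depending only on `m`) of the residue classes modulo `π` of `(a, b)` consists of pairs for
which `b` (or `a² - 4 b`) is irreducible over the residue field, and the same holds for the pairs for
which it is the product of a linear factor and of an irreducible factor of degree `m - 1 ≥ 2`
(Hensel), so that it is not a norm. So almost all pairs have all four properties, each at some prime.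
-/

set_option autoImplicit false

namespace Pool.Agent.Results.MP_17a657_ag.AlmostAllPositiveCharacteristic

open Polynomial Filter Topology Pool.Agent.TH115.GD

/-- `k` is an extension of `𝔽(u)` which is generated by finitely many elements (`u` is the image of
the variable of `𝔽[X]`). -/
def FinitelyGenerated (𝔽 k : Type) [Field 𝔽] [Field k] [Algebra 𝔽[X] k] : Prop :=
  Function.Injective (algebraMap 𝔽[X] k) ∧
    ∃ s : Finset k, Subfield.closure (Set.range (algebraMap 𝔽[X] k) ∪ (s : Set k)) = ⊤

/-- The polynomials of degree at most `n` in `t` whose coefficients are polynomials of degree less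
than `D` in `u`. -/
def polys (𝔽 : Type) [Field 𝔽] (n D : ℕ) : Set 𝔽[X][X] :=
  {f | f.natDegree ≤ n ∧ ∀ i, f.coeff i ∈ degreeLT 𝔽 D}

/-- The pairs of such polynomials of degrees at most `n` and `m`. -/
def pairs (𝔽 : Type) [Field 𝔽] (n m D : ℕ) : Set (𝔽[X][X] × 𝔽[X][X]) :=
  {x | x.1 ∈ polys 𝔽 n D ∧ x.2 ∈ polys 𝔽 m D}

/-- The set of pairs `(a, b)` for which the Tate conjecture at 2 holds for all the twists by constants
`d ≠ 0` in `k` of `y² = x (x² + a x + b)`. -/
def Good (𝔽 k k' K F : Type) [Field 𝔽] [Field k] [Algebra 𝔽[X] k] [Field k'] [Algebra k k']
    [Field K] [Algebra k[X] K] [Field F] [Algebra k'[X] F] [IsFractionRing k'[X] F] [Algebra K F] :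
    Set (𝔽[X][X] × 𝔽[X][X]) :=
  {x | ∀ d : k, d ≠ 0 → TateAtTwo (F := F) k'
    (crvT (algebraMap k[X] K (C d * x.1.map (algebraMap 𝔽[X] k)))
      (algebraMap k[X] K (C (d ^ 2) * x.2.map (algebraMap 𝔽[X] k))))}

/-- **The Tate conjecture at 2 for almost all elliptic surfaces with a section of order two over
infinite finitely generated fields of odd characteristic.** -/
theorem result (𝔽 : Type) [Field 𝔽] [Finite 𝔽] (h2 : (2 : 𝔽) ≠ 0) (n m : ℕ) (hm : 3 ≤ m)
    (hnm : 2 * n ≤ m) (k k' K F : Type) [Field k] [Algebra 𝔽[X] k] (hk : FinitelyGenerated 𝔽 k)
    [Field k'] [Algebra k k'] [Field K] [Algebra k[X] K] [Field F] [Algebra k'[X] F]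
    [IsFractionRing k'[X] F] [Algebra K F] (hT : IsTower k k' K F) :
    Tendsto (fun D : ℕ => ((pairs 𝔽 n m D ∩ Good 𝔽 k k' K F).ncard : ℝ) / (pairs 𝔽 n m D).ncard)
      atTop (𝓝 1) := by
  obtain ⟨hinj, s, hs⟩ := hk
  exact Pool.Agent.Q126.FD.core_one (Pool.Agent.Q126.FD.rich_fg k hinj s hs) h2 hm hnm hT
    fun x hx => hx

end Pool.Agent.Results.MP_17a657_ag.AlmostAllPositiveCharacteristic
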