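import Mathlib
import Pool.Agent.TH115.GD.Defs
import Pool.Agent.TH115.GD.Defs2
import Pool.Agent.TH115.SK.Defs
import Pool.Agent.Q59.PB.Tow
import Pool.Agent.Q308.TC.Irr

/-!
# The Tate conjecture at 2 for almost all pull-backs of every elliptic surface of maximal rank

Let `k` be a finitely generated field of characteristic zero, `k'` a separable closure, `K = k(t)`,
`F = k'(t)`. Let `a ≠ b` be coprime polynomials over `k`, not zero, such that the maximum of their
degrees is odd, or two of `a`, `b`, `a - b` have an irreducible factor of odd degree and odd
multiplicity, and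

`E : y ^ 2 = x (x - a) (x - b)`.

The curve `E` is called here of maximal rank `d` if there are at most `2 ^ (d + 2)` triples of monic
squarefree divisors of `a`, `b`, `a - b` over `k` (with a condition on the parities of the degrees if the
maximal degree is even), and there are `d` points of `E(K)` which are independent modulo `2 E(K)` and
the points of order two. (So the rank of `E(K)` is the largest which the geometric 2-descent allows.
Examples are the rational elliptic surfaces with full level two structure whose bad fibres and sections
are defined over `k`: `d = 1` if `a`, `b`, `a - b` are linear, `d = 2` if they are quadratic with six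
zeros in `k`.) The coefficients of `a`, `b` are arbitrary elements of `k`.

Theorem. Let `E` be of maximal rank `d` and let `N` be odd. Among the integer polynomials `g` of degree
at most `N` with coefficients of absolute value at most `H`, the proportion of those for which the
pull-back of `E` by `g`,

`E_g : y ^ 2 = x (x - a(g(t))) (x - b(g(t)))`,

has the following properties tends to one as `H` tends to infinity:

1. the Tate conjecture for divisors at the prime 2 holds for `E_g` over `k`: every class in
   `V₂ Sel(E_g / F)` which is fixed by the Galois group of `k` comes from `E_g(K)` (for the surface `X`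
   with generic fibre `E_g` one has `Br(X ⊗ k') = Ш(E_g / F)`, Grothendieck);
2. `E_g(K)` has `d` linearly independent points, and the fixed classes are generated by `d` elements:
   the number of independent Tate classes besides those of the fibres and of the zero section is
   exactly `d`;
3. the 2-primary part of the Tate-Shafarevich group of `E_g` over `K = k(t)` is zero.

The geometric genus of the surfaces `E_g` tends to infinity with `N`.

Method: by the theorem on pull-backs of surfaces of maximal rank (`Pool.Agent.Q59.PB`) it is sufficient
that `π(g)` is irreducible for each of the irreducible divisors `π` of `a b (a - b)`. Let `α` be a zero of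
`π`. By a theorem of Cassels the field `k(α)` can be embedded in `ℚ_p`, with `α` in `ℤ_p`, for
infinitely many primes `p`. For each of these primes a positive proportion (depending only on `N`) of
the polynomials modulo `p` consists of those `g` for which `g - α` is irreducible modulo `p`, and then
`g - α` is irreducible over `k(α)`, so `π(g)` is irreducible over `k`.
-/

set_option autoImplicit false
set_option linter.all false

namespace Pool.Agent.Results.MP_17a657_ag.AlmostAllPullbacks

open Polynomial Filter Topology Pool.Agent.TH115.GD
open scoped Classical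

/-- The curve `y ^ 2 = x (x - a) (x - b)` over `K = k(t)` is of maximal rank `d`: there are at most
`2 ^ (d + 2)` triples of divisors of `a`, `b`, `a - b`, and there are `d` points which are independent
modulo the points of order two and the multiples of two. -/
def MaximalRank (k K : Type) [Field k] [Field K] [Algebra k[X] K] (a b : k[X]) (d : ℕ) : Prop :=
  (Triples a b).encard ≤ 2 ^ (d + 2) ∧
    ∃ P : Fin d → Pt (crv (algebraMap k[X] K a) (algebraMap k[X] K b)) K,
      ∀ S : Finset (Fin d), S.Nonempty →
        ∀ T Q : Pt (crv (algebraMap k[X] K a) (algebraMap k[X] K b)) K, T + T = 0 →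
          ∑ i ∈ S, P i ≠ T + (Q + Q)

/-- The conditions on the polynomials `a`, `b`. -/
def Suitable {k : Type} [Field k] (a b : k[X]) : Prop :=
  a ≠ 0 ∧ b ≠ 0 ∧ a ≠ b ∧ IsCoprime a b ∧
    (Odd (max a.natDegree b.natDegree) ∨ TwoOddFactors a b)

/-- The curve `y ^ 2 = x (x - a) (x - b)` over `K` satisfies the Tate conjecture at 2, it has `d`
linearly independent points, the Galois-invariant classes of `V₂ Sel` are generated by `d`
elements, and the 2-primary part of the Tate-Shafarevich group over `K` is zero. -/
def TateOfRank {k K F : Type} (k' : Type) [Field k] [Field K] [Algebra k[X] K]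
    [IsFractionRing k[X] K] [Field k'] [Field F] [Algebra k'[X] F] [IsFractionRing k'[X] F]
    [Algebra K F] (a b : k[X]) (d : ℕ) : Prop :=
  TateAtTwo (F := F) k' (crv (algebraMap k[X] K a) (algebraMap k[X] K b)) ∧
  (∃ P : Fin d → Pt (crv (algebraMap k[X] K a) (algebraMap k[X] K b)) K,
    LinearIndependent ℤ P) ∧
  GeneratedBy (F := F) k' (crv (algebraMap k[X] K a) (algebraMap k[X] K b)) d ∧
  ShaTwo k (crv (algebraMap k[X] K a) (algebraMap k[X] K b))

/-- The integer polynomials of degree at most `N` with coefficients of absolute value at most `H`. -/
def polys (N H : ℕ) : Set ℤ[X] := {f | f.natDegree ≤ N ∧ ∀ i, |f.coeff i| ≤ H}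

/-- The integer polynomials `g` of degree `N` for which the pull-back of `y ^ 2 = x (x - a) (x - b)` by
`g` satisfies the Tate conjecture at 2, with exactly `d` independent Tate classes. -/
def Good {k K F : Type} (k' : Type) [Field k] [Field K] [Algebra k[X] K]
    [IsFractionRing k[X] K] [Field k'] [Field F] [Algebra k'[X] F] [IsFractionRing k'[X] F]
    [Algebra K F] (a b : k[X]) (d N : ℕ) : Set ℤ[X] :=
  {g | g.natDegree = N ∧
    TateOfRank (K := K) (F := F) k' (a.comp (g.map (Int.castRingHom k)))
      (b.comp (g.map (Int.castRingHom k))) d}

/-- **The Tate conjecture at 2 for almost all pull-backs of every elliptic surface of maximal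
rank.** -/
theorem result {N : ℕ} (hN : Odd N) {k k' K F : Type} [Field k] [CharZero k]
    (hk : ∃ s : Finset k, Subfield.closure (s : Set k) = ⊤)
    [Field k'] [Algebra k k'] [Field K] [Algebra k[X] K] [IsFractionRing k[X] K] [Field F]
    [Algebra k'[X] F] [IsFractionRing k'[X] F] [Algebra K F] (hT : IsTower k k' K F)
    {a b : k[X]} (hab : Suitable a b) {d : ℕ} (H : MaximalRank k K a b d) :
    Tendsto (fun B : ℕ => ((polys N B ∩ Good (K := K) (F := F) k' a b d N).ncard : ℝ) /
      (polys N B).ncard) atTop (𝓝 1) := by
  obtain ⟨ha, hb, hne, hco, hodd⟩ := hab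
  have hN0 : 0 < N := hN.pos
  have hprod : a * b * (a - b) ≠ 0 := mul_ne_zero (mul_ne_zero ha hb) (sub_ne_zero.2 hne)
  have h1 := Pool.Agent.Q308.TC.keeps_full (k := k) hk hN0 Pool.Agent.Q308.TC.equi_id hprod
  have h2 := Pool.Agent.Q126.TD.irr_full (k := k) hk hN0 Pool.Agent.Q308.TC.equi_id
  refine Pool.Agent.Q126.TD.tendsto_polys ((h1.inter h2).mono ?_)
  rintro v ⟨v1, -, v3⟩
  set g : ℤ[X] := Pool.Agent.Q126.TD.pol v with hg
  change ∀ π : k[X], Irreducible π → π ∣ a * b * (a - b) →
      Irreducible (π.comp (g.map (Int.castRingHom k))) at v1
  change (g.map (Int.castRingHom k)).natDegree = N at v3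
  have hinj : Function.Injective (Int.castRingHom k) := Int.cast_injective
  have hgo : Odd (g.map (Int.castRingHom k)).natDegree := by rw [v3]; exact hN
  have hK : ∀ π : k[X], Irreducible π → π ∣ a * b * (a - b) →
      Irreducible (π.comp (g.map (Int.castRingHom k))) ∧
        (π.comp (g.map (Int.castRingHom k))).Separable :=
    fun π h1 h2 => ⟨v1 π h1 h2, (v1 π h1 h2).separable⟩
  obtain ⟨e1, e2, e3, e4, e5, e6⟩ := Pool.Agent.Q59.PB.hyps_comp ha hb hne hco hodd hgo hK
  have H' := Pool.Agent.Q59.PB.maxRk_comp hT two_ne_zero ha hb hne hco hodd hgo hK H
  obtain ⟨r1, r2, r3, r4⟩ :=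
    Pool.Agent.Q59.PB.maxRk_all (F := F) hT two_ne_zero e1 e2 e3 e4 e5 e6 H'
  exact ⟨(natDegree_map_eq_of_injective hinj g).symm.trans v3, r1, r3, r2, r4⟩

end Pool.Agent.Results.MP_17a657_ag.AlmostAllPullbacks
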