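import Pool.Agent.Q193.LT.Cyc

/-!
# The Tate conjecture for divisors over all finitely generated fields and cubics over prime fields

Let `F` be a prime field (`ℚ` or `𝔽_p`), `G` its absolute Galois group and `ℓ ≠ char F` a prime number.
For a smooth projective variety `Y` over `F` let `A^n(Y)` be the `ℚ_ℓ`-subspace of
`H^{2n}(Y_{F̄}, ℚ_ℓ(n))` generated by the classes of the algebraic cycles on `Y` (for `n = 1`:
`NS(Y) ⊗ ℚ_ℓ`), and `B^n(Y) = H^{2n}(Y_{F̄}, ℚ_ℓ(n))^G`, so that `B^1(Y) / A^1(Y) = V_ℓ Br(Y_{F̄})^G`.
Both are functors of Chow motives over `F`. For a separated scheme `X` of finite type over `F` let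
`W(X)` be its weight complex (Gillet, Soulé, Bondarko; `W(X) = h(X)` for smooth projective `X`), and
`A^{n,i}(X) = H^i(A^n(W(X)))`, `B^{n,i}(X) = H^i(B^n(W(X)))`. `BijAll C X` says that the maps
`A^{n,i}(X) → B^{n,i}(X)` are isomorphisms for all `n` and `i`. For a smooth projective surface this is
the Tate conjecture for divisors (the cases `n = 0, 2` are trivial).

The index set `I` is the set of the pairs `(F, ℓ)`, and `C i` are these data for `i = (F, ℓ)`. `Tate` is
the statement of question Q1: the Tate conjecture for divisors is true for all smooth projective varieties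
over all finitely generated fields (of characteristic `0` and `p > 0`) and all `ℓ`. It is known that
this is equivalent to the statement for smooth projective surfaces over the prime fields
(hypothesis `surfaces`): in characteristic `0` one passes to number fields by specialization (Lefschetz
theorem on `(1, 1)`-classes, André), in characteristic `p` to finite fields (de Jong, Morrow, Ambrosi,
Kahn), then to surfaces by the Lefschetz theorems, and from finite extensions of `F` to `F` by
considering a variety over the extension as a variety over `F`.

**Theorem.** (1) The Tate conjecture for divisors (question Q1) is true for all smooth projective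
varieties over all finitely generated fields if and only if for all prime fields `F` and all `ℓ ≠ char F`
the maps `A^{n,i}(Z) → B^{n,i}(Z)` are isomorphisms for the smooth affine cubic hypersurfaces
`Z : T(x, y, z) = 1` of all trilinear forms `T` over `F` such that one of the three blocks of variables
has at most four variables (the other two blocks are arbitrary).

(2) For all prime fields `F` and all `ℓ ≠ char F`, they are isomorphisms if one of the three blocks of
variables has at most three variables.
-/

set_option autoImplicit false

open CategoryTheory CategoryTheory.Limits AlgebraicGeometry Pool.Agent.Y116.UV Pool.Agent.Z125.UN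
  Pool.Agent.Q193.LT

universe w w'

namespace Pool.Agent.Results.MP_17a657_ag.PrimeFieldCubics

/-- The maps are isomorphisms for all smooth projective schemes of dimension at most `n`. -/
def Proj {k : Type} [Field k] {E : Type w'} [CommRing E] (C : PairData.{w} k (ℤ × ℤ) E) (n : ℕ) :
    Prop :=
  ∀ Y : Sch k, SmoothProj Y → topologicalKrullDim Y.left ≤ n → BijAll C Y

/-- The maps are isomorphisms for all hypersurfaces `T = 1` with a block of at most `m` variables. -/
def Forms {k : Type} [Field k] {E : Type w'} [CommRing E] (C : PairData.{w} k (ℤ × ℤ) E) (m : ℕ) :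
    Prop :=
  ∀ (a b c : ℕ) (T : Fin a → Fin b → Fin c → k), (a ≤ m ∨ b ≤ m ∨ c ≤ m) → BijAll C (hypS T)

/-- **The Tate conjecture for divisors over finitely generated fields.** See the explanations above.
`I` is the set of pairs `i = (F, ℓ)` with `F = k i` a prime field and `E i = ℚ_ℓ`. `point` and `curves`
are the known cases of dimension at most `1`. -/
theorem result {I : Type} {k : I → Type} [∀ i, Field (k i)] [∀ i, PerfectField (k i)]
    {E : I → Type w'} [∀ i, CommRing (E i)] {C : ∀ i, PairData.{w} (k i) (ℤ × ℤ) (E i)}
    (hC : ∀ i, IsWeightPair (C i)) (hg : ∀ i, WeightGen (C i))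
    (point : ∀ i, BijAll (C i) (aff (k i) (k i))) (curves : ∀ i, Proj (C i) 1) {Tate : Prop}
    (surfaces : Tate ↔ ∀ i, Proj (C i) 2) :
    (Tate ↔ ∀ i, Forms (C i) 4) ∧ ∀ i, Forms (C i) 3 :=
  ⟨surfaces.trans (forall_congr' fun i => wg_dim (hg i) (hC i) (point i) 2),
    fun i => (wg_dim (hg i) (hC i) (point i) 1).mp (curves i)⟩

end Pool.Agent.Results.MP_17a657_ag.PrimeFieldCubics
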