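import Pool.Agent.Q126.FD.Pairs
import Pool.Agent.Q126.FD.Fg
import Pool.Agent.Results.MP_17a657_ag.RationalBranchPoints

/-!
# The Tate conjecture for divisors on almost all surfaces `y ^ ℓ = (x - c 1) ⋯ (x - c m) (x - g(t))`
# over all infinite finitely generated fields of positive characteristic, all primes `ℓ` at once

Let `𝔽` be a finite field and `k` a field which is generated by finitely many elements over `𝔽(u)`,
`u` transcendental over `𝔽` (every infinite finitely generated field of positive characteristic is
such a field, with `𝔽` the prime field and `u` any transcendental element). Let `k'` be a separable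
closure of `k`, `K = k(t)`, `F = k'(t)`, and let `c 1, …, c m` be distinct elements of `𝔽[u]`. For a
prime `ℓ` such that `k` contains the roots of unity of order `ℓ`, and a polynomial `g(t)` over `𝔽[u]`,
let `X_{ℓ, g}` be the surface fibred over the `t`-line with the generic fibre

`C : y ^ ℓ = (x - c 1) ⋯ (x - c m) (x - g(t))`,

the pullback by `t ↦ g(t)` of the family of the cyclic covers of degree `ℓ` of the line with the fixed
branch points `c 1, …, c m, ∞` and one moving branch point. Let `J` be the Jacobian of `C`, for `ℓ` not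
dividing `m + 1` of dimension `(ℓ - 1) m / 2`. The geometric genus of `X_{ℓ, g}` tends to infinity with
the degree of `g`.

Theorem. Let `n ≥ 1`. Among the polynomials `g` of degree at most `n` in `t` whose coefficients are
polynomials in `u` over `𝔽` of degree less than `D`, the proportion of those for which

for all primes `ℓ` which do not divide `n (m + 1)` and for which `k` contains a primitive root of unity
of order `ℓ` (so `ℓ` is not the characteristic), the Tate conjecture at `ℓ` over `k` (`TateAt`) holds
for the divisors on `X_{ℓ, g}`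

tends to one as `D` tends to infinity.

`TateAt` says that all the classes in `V_ℓ Sel(J / F)` which are fixed by the Galois group of `k`
come from `J(K)`; as `Br(X ⊗ k') = Ш(J / F)` (Grothendieck), this is the Tate conjecture for divisors
at `ℓ` over `k` on a smooth projective model of the surface.

The proof: by `MP_17a657_ag.RationalBranchPoints` it is sufficient that the polynomials `g - c i` are
irreducible and separable over `k` and that `g` has degree `n`. For infinitely many primes `π(u)` the
field `k` has an embedding in the field of power series over `𝔽[u] / π`, compatible with `u`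
(`rich_fg`); for each of these primes at least the proportion `1 / (4 n)` of the residue classes modulo
`π` of `g` is such that `g - c i` is irreducible modulo `π` of degree `n`, hence over `k`.
-/

set_option autoImplicit false

namespace Pool.Agent.Results.MP_17a657_ag.SuperellipticPositiveChar

open Polynomial Filter Topology Pool.Agent.TH115.GD
open Pool.Agent.Y713.Tate (TateAt)

/-- `k` is an extension of `𝔽(u)` which is generated by finitely many elements (`u` is the image of
the variable of `𝔽[X]`). -/
def FinitelyGenerated (𝔽 k : Type) [Field 𝔽] [Field k] [Algebra 𝔽[X] k] : Prop :=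
  Function.Injective (algebraMap 𝔽[X] k) ∧
    ∃ s : Finset k, Subfield.closure (Set.range (algebraMap 𝔽[X] k) ∪ (s : Set k)) = ⊤

/-- The polynomials of degree at most `n` in `t` whose coefficients are polynomials of degree less
than `D` in `u`. -/
def polys (𝔽 : Type) [Field 𝔽] (n D : ℕ) : Set 𝔽[X][X] :=
  {f | f.natDegree ≤ n ∧ ∀ i, f.coeff i ∈ degreeLT 𝔽 D}

/-- The polynomial `(x - c 0) ⋯ (x - c (m - 1)) (x - g(t))` over `K = k(t)`. -/
noncomputable def branch (K : Type) {k : Type} [Field k] [Field K] [Algebra k[X] K] {m : ℕ}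
    (c : Fin m → k) (g : k[X]) : K[X] :=
  (∏ i, (X - C (algebraMap k[X] K (C (c i))))) * (X - C (algebraMap k[X] K g))

/-- The set of the polynomials `g` over `𝔽[u]` such that the Tate conjecture for the divisors at `ℓ`
holds for the surfaces `y ^ ℓ = (x - c 0) ⋯ (x - c (m - 1)) (x - g(t))`, for all primes `ℓ` which do
not divide `n (m + 1)` and for which `k` contains a primitive root of unity of order `ℓ`. -/
def Good (n : ℕ) (𝔽 k k' K F : Type) [Field 𝔽] [Field k] [Algebra 𝔽[X] k] [Field k'] [Algebra k k']
    [Field K] [Algebra k[X] K] [Field F] [Algebra k'[X] F] [IsFractionRing k'[X] F] [Algebra K F]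
    {m : ℕ} (c : Fin m → 𝔽[X]) : Set 𝔽[X][X] :=
  {g | ∀ ℓ : ℕ, ℓ.Prime → ¬ ℓ ∣ n * (m + 1) → (∃ ζ : k, IsPrimitiveRoot ζ ℓ) →
    TateAt (F := F) ℓ k' (branch K (fun i => algebraMap 𝔽[X] k (c i))
      (g.map (algebraMap 𝔽[X] k)))}

/-- **The Tate conjecture for divisors on almost all surfaces
`y ^ ℓ = (x - c 0) ⋯ (x - c (m - 1)) (x - g(t))` over an infinite finitely generated field of positive
characteristic.** -/
theorem result (𝔽 : Type) [Field 𝔽] [Finite 𝔽] (n m : ℕ) (hn : 1 ≤ n) (k k' K F : Type) [Field k]
    [Algebra 𝔽[X] k] (hk : FinitelyGenerated 𝔽 k) [Field k'] [Algebra k k'] [Field K]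
    [Algebra k[X] K] [Field F] [Algebra k'[X] F] [IsFractionRing k'[X] F] [Algebra K F]
    (hT : IsTower k k' K F) (c : Fin m → 𝔽[X]) (hc : Function.Injective c) :
    Tendsto (fun D : ℕ => ((polys 𝔽 n D ∩ Good n 𝔽 k k' K F c).ncard : ℝ) / (polys 𝔽 n D).ncard)
      atTop (𝓝 1) := by
  obtain ⟨hinj, s, hs⟩ := hk
  have hr := Pool.Agent.Q126.FD.rich_fg k hinj s hs
  apply Pool.Agent.Q126.FD.tendsto_polys
  have h1 := Pool.Agent.Q126.FD.Full.all fun i => Pool.Agent.Q126.FD.irr_full (𝔽 := 𝔽) hr
    (m := n) (by omega) (Pool.Agent.Q126.FD.equi_const (n := n) (c i))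
  have h2 := Pool.Agent.Q126.FD.irr_full (𝔽 := 𝔽) hr (m := n) (by omega)
    (Pool.Agent.Q126.FD.equi_self (n := n))
  refine (h1.inter h2).mono ?_
  rintro v ⟨hv, -, -, hd⟩ ℓ hℓ hdiv ⟨ζ, hζ⟩
  set g := (Pool.Agent.Q126.TD.pol v).map (algebraMap 𝔽[X] k) with hg
  have hi : ∀ i, Irreducible (g - C (algebraMap 𝔽[X] k (c i))) ∧
      (g - C (algebraMap 𝔽[X] k (c i))).Separable := by
    intro i
    have h3 := Set.mem_iInter.1 hv i
    have e : (Pool.Agent.Q126.TD.pol v - C (c i)).map (algebraMap 𝔽[X] k) =
        g - C (algebraMap 𝔽[X] k (c i)) := by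
      rw [Polynomial.map_sub, map_C]
    exact ⟨e ▸ h3.1, e ▸ h3.2.1⟩
  have h2 := Pool.Agent.Results.MP_17a657_ag.RationalBranchPoints.movingPoint (F := F) hT hℓ hζ
    (fun h => hdiv (h.mul_left _)) (hinj.comp hc) (g := g) hi
    (by rw [hd]; exact fun h => hdiv (h.mul_right _))
  have e : Pool.Agent.Results.MP_17a657_ag.RationalBranchPoints.branchPoly K
      (Fin.snoc (fun i => C (algebraMap 𝔽[X] k (c i))) g : Fin (m + 1) → k[X]) =
        branch K (fun i => algebraMap 𝔽[X] k (c i)) g := by
    unfold Pool.Agent.Results.MP_17a657_ag.RationalBranchPoints.branchPoly branch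
    rw [Fin.prod_univ_castSucc]
    simp only [Fin.snoc_castSucc, Fin.snoc_last]
  have h4 : (fun i => C (algebraMap 𝔽[X] k (c i))) =
      fun i => C (((algebraMap 𝔽[X] k) ∘ c) i) := rfl
  rw [← h4, e] at h2
  exact h2

end Pool.Agent.Results.MP_17a657_ag.SuperellipticPositiveChar
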